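import Pool.Agent.W990.EB.Stm
import Pool.Agent.W990.EB.Der

/-!
# Project EB: the integrated identity
-/

set_option autoImplicit false
open Finset

namespace Pool.Agent.W290.EB

open Pool.Agent.W990.EB

variable (K : ℕ) (S : Finset ℕ)

theorem J_add (P Q : ℝ → ℝ → ℝ → ℝ → ℝ) (t : ℝ) :
    J K S (fun a b c d => P a b c d + Q a b c d) t = J K S P t + J K S Q t := by
  unfold J
  simp only [← Finset.sum_add_distrib]
  refine Finset.sum_congr rfl fun a _ => Finset.sum_congr rfl fun b _ =>
    Finset.sum_congr rfl fun c _ => Finset.sum_congr rfl fun d _ => ?_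
  ring

theorem J_smul (x : ℝ) (P : ℝ → ℝ → ℝ → ℝ → ℝ) (t : ℝ) :
    J K S (fun a b c d => x * P a b c d) t = x * J K S P t := by
  unfold J
  simp only [Finset.mul_sum]
  refine Finset.sum_congr rfl fun a _ => Finset.sum_congr rfl fun b _ =>
    Finset.sum_congr rfl fun c _ => Finset.sum_congr rfl fun d _ => ?_
  ring

theorem J_cont (P : ℝ → ℝ → ℝ → ℝ → ℝ)
    (hP : ∀ a b c d : ℝ, Continuous (fun t : ℝ => P (t * a) (t * b) (t * c) (t * d))) :
    Continuous (fun t => J K S P t) := by
  unfold J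
  refine continuous_finsetSum _ fun a _ => continuous_finsetSum _ fun b _ =>
    continuous_finsetSum _ fun c _ => continuous_finsetSum _ fun d _ => ?_
  exact continuous_const.mul ((hP a b c d).mul (by fun_prop))

/-- the derivative of `t J(al)` -/
theorem psi (t : ℝ) : HasDerivAt (fun t : ℝ => t * J K S al t)
    (1 / 2 * J K S (fun _ _ _ _ => 1) t - 8 / 315 * (J K S (sym pe) t + J K S (sym po) t) -
      J K S (fun a b c d => (a + d - b - c) * be a b c d) t) t := by
  have h1 : HasDerivAt (fun t : ℝ => ∑ a ∈ S, ∑ b ∈ S, ∑ c ∈ S, ∑ d ∈ S,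
      w K ((a : ℤ) + d - b - c) * (t * (al (t * a) (t * b) (t * c) (t * d) *
        Real.exp (-(t * (a + b + c + d))))))
      (∑ a ∈ S, ∑ b ∈ S, ∑ c ∈ S, ∑ d ∈ S, w K ((a : ℤ) + d - b - c) *
        ((1 / 2 - 8 / 315 * (sym pe (t * a) (t * b) (t * c) (t * d) +
          sym po (t * a) (t * b) (t * c) (t * d)) -
          (t * a + t * d - t * b - t * c) * be (t * a) (t * b) (t * c) (t * d)) *
        Real.exp (-(t * (a + b + c + d))))) t := by
    refine HasDerivAt.fun_sum fun a _ => HasDerivAt.fun_sum fun b _ =>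
      HasDerivAt.fun_sum fun c _ => HasDerivAt.fun_sum fun d _ => ?_
    exact (der a b c d t).const_mul _
  have e1 : (fun t : ℝ => t * J K S al t) = (fun t : ℝ => ∑ a ∈ S, ∑ b ∈ S, ∑ c ∈ S, ∑ d ∈ S,
      w K ((a : ℤ) + d - b - c) * (t * (al (t * a) (t * b) (t * c) (t * d) *
        Real.exp (-(t * (a + b + c + d)))))) := by
    funext s
    unfold J
    simp only [Finset.mul_sum]
    refine Finset.sum_congr rfl fun a _ => Finset.sum_congr rfl fun b _ =>
      Finset.sum_congr rfl fun c _ => Finset.sum_congr rfl fun d _ => ?_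
    ring
  rw [e1]
  refine h1.congr_deriv ?_
  unfold J
  simp only [Finset.mul_sum, mul_add, ← Finset.sum_add_distrib, ← Finset.sum_sub_distrib]
  refine Finset.sum_congr rfl fun a _ => Finset.sum_congr rfl fun b _ =>
    Finset.sum_congr rfl fun c _ => Finset.sum_congr rfl fun d _ => ?_
  ring

theorem id (hs : S_SWAP) (hb : S_BD) (hp : S_PG) : S_ID := by
  intro K R hK
  obtain ⟨hal, hbe, -, -⟩ := hp
  obtain ⟨C, hC, hC1⟩ := hb al hal K R hK
  obtain ⟨C', hC', hC2⟩ := hb be hbe K R hK
  refine ⟨2 * C + C', by positivity, ?_⟩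
  intro S hS ε hε hε1
  have hpsi : ∀ t : ℝ, 0 < t → t ≤ 1 → |t * J K S al t| ≤ C := by
    intro t ht ht1
    rw [abs_mul, abs_of_pos ht]
    have h1 := (hC1 S hS t ht ht1).1
    calc t * |J K S al t| ≤ t * (C / t) := mul_le_mul_of_nonneg_left h1 ht.le
      _ = C := mul_div_cancel₀ _ ht.ne'
  set g : ℝ → ℝ := fun t => 1 / 2 * J K S (fun _ _ _ _ => 1) t -
      8 / 315 * (J K S pe t + J K S po t) with hg
  set h : ℝ → ℝ := fun t => J K S (fun a b c d => (a + d - b - c) * be a b c d) t with hh
  have cg : Continuous g := by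
    refine (continuous_const.mul (J_cont K S _ fun a b c d => continuous_const)).sub
      (continuous_const.mul ((J_cont K S _ fun a b c d => ?_).add
        (J_cont K S _ fun a b c d => ?_)))
    · unfold pe qe; fun_prop
    · unfold po qo; fun_prop
  have ch : Continuous h := by
    refine J_cont K S _ fun a b c d => ?_
    unfold be be0
    fun_prop
  have hint : ∫ t in ε..1, (g t - h t) = 1 * J K S al 1 - ε * J K S al ε := by
    apply intervalIntegral.integral_eq_sub_of_hasDerivAt (f := fun t : ℝ => t * J K S al t)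
    · intro t _
      have h1 := psi K S t
      rw [hs, hs] at h1
      exact h1
    · exact (cg.sub ch).intervalIntegrable _ _
  rw [intervalIntegral.integral_sub (cg.intervalIntegrable _ _) (ch.intervalIntegrable _ _)]
    at hint
  have hhb : |∫ t in ε..1, h t| ≤ C' := by
    have h1 : ‖∫ t in ε..1, h t‖ ≤ C' * |1 - ε| := by
      apply intervalIntegral.norm_integral_le_of_norm_le_const
      intro t ht
      rw [Set.uIoc_of_le hε1] at ht
      exact (hC2 S hS t (hε.trans ht.1) ht.2).2
    rw [Real.norm_eq_abs] at h1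
    refine h1.trans ?_
    have h2 : |1 - ε| ≤ 1 := by
      rw [abs_of_nonneg (by linarith)]
      linarith
    calc C' * |1 - ε| ≤ C' * 1 := mul_le_mul_of_nonneg_left h2 hC'
      _ = C' := mul_one _
  have h3 := hpsi 1 one_pos le_rfl
  have h4 := hpsi ε hε hε1
  have h5 : ∫ t in ε..1, g t = 1 * J K S al 1 - ε * J K S al ε + ∫ t in ε..1, h t := by
    linarith
  rw [h5]
  calc |1 * J K S al 1 - ε * J K S al ε + ∫ t in ε..1, h t| ≤
      |1 * J K S al 1 - ε * J K S al ε| + |∫ t in ε..1, h t| := abs_add_le _ _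
    _ ≤ |1 * J K S al 1| + |ε * J K S al ε| + |∫ t in ε..1, h t| :=
        add_le_add_left (abs_sub _ _) _
    _ ≤ 2 * C + C' := by linarith

end Pool.Agent.W290.EB
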